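import Pool.Agent.H462R2.PiE2

set_option autoImplicit false

/-!
Tools for the tower: the strong six exponentials theorem with first row `(1, b)` and Baker's
theorem for real logarithms together with `π`.
-/

namespace Pool.Agent.H137R5.Tow

open Pool.Agent.H301R2.SSE Pool.Agent.H340R2 Pool.Agent.H462R2.PiE

/-- strong six exponentials with the rows `1` and `b` -/
theorem core (b : ℝ) (hb : Transcendental ℚ b) (y0 y1 y2 : ℂ)
    (hy : ∀ a c d : ℂ, IsAlgebraic ℚ a → IsAlgebraic ℚ c → IsAlgebraic ℚ d →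
      a * y0 + c * y1 + d * y2 = 0 → a = 0 ∧ c = 0 ∧ d = 0)
    (h0 : y0 ∈ Lt) (h1 : y1 ∈ Lt) (h2 : y2 ∈ Lt)
    (k0 : (b : ℂ) * y0 ∈ Lt) (k1 : (b : ℂ) * y1 ∈ Lt) (k2 : (b : ℂ) * y2 ∈ Lt) : False := by
  refine strong_six ![1, ((b : ℝ) : ℂ)] ![y0, y1, y2] ?_ ?_ ?_
  · intro a c ha hc hac
    exact one_indep b hb a c ha hc hac
  · intro c hc hsum
    rw [Fin.sum_univ_three] at hsum
    simp only [Matrix.cons_val_zero, Matrix.cons_val_one, Matrix.cons_val] at hsum
    have := hy (c 0) (c 1) (c 2) (hc 0) (hc 1) (hc 2) hsum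
    intro j
    fin_cases j
    · exact this.1
    · exact this.2.1
    · exact this.2.2
  · intro i j
    fin_cases i <;> fin_cases j
    · simpa using h0
    · simpa using h1
    · simpa using h2
    · simpa using k0
    · simpa using k1
    · simpa using k2

theorem ae {t : ℝ} (h : IsAlgebraic ℚ (Real.exp t)) : IsAlgebraic ℚ (Complex.exp (t : ℂ)) := by
  rw [← Complex.ofReal_exp]
  exact alg_ofReal h

theorem lt_of {t : ℝ} (h : IsAlgebraic ℚ (Real.exp t)) : (t : ℂ) ∈ Lt := Lt_log (ae h)

/-- Baker's theorem for real logarithms, `π` and `1`. -/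
theorem bkn {ι : Type} [Fintype ι] (r : ι → ℝ) (hr : ∀ i, IsAlgebraic ℚ (Real.exp (r i)))
    (hind : ∀ p : ι → ℚ, ∑ i, (p i : ℝ) * r i = 0 → ∀ i, p i = 0) (a d : ℂ) (c : ι → ℂ)
    (ha : IsAlgebraic ℚ a) (hd : IsAlgebraic ℚ d) (hc : ∀ i, IsAlgebraic ℚ (c i))
    (h : a + ∑ i, c i * (r i : ℂ) + d * (Real.pi : ℂ) = 0) :
    a = 0 ∧ (∀ i, c i = 0) ∧ d = 0 := by
  classical
  have hlin : LinearIndependent ℚ
      (fun o : Option ι => Option.elim o ((Real.pi : ℂ) * Complex.I) (fun i => (r i : ℂ))) := by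
    rw [Fintype.linearIndependent_iff]
    intro g hg
    rw [Fintype.sum_option] at hg
    simp only [Option.elim] at hg
    have him := congrArg Complex.im hg
    have hre := congrArg Complex.re hg
    simp only [Complex.add_im, Complex.add_re, Complex.im_sum, Complex.re_sum, Complex.zero_im,
      Complex.zero_re, Complex.smul_im, Complex.smul_re, Complex.mul_im, Complex.mul_re,
      Complex.ofReal_re, Complex.ofReal_im, Complex.I_re, Complex.I_im] at him hre
    have h1 : g none = 0 := by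
      have h3 : (g none : ℝ) * Real.pi = 0 := by
        simpa [Rat.smul_def] using him
      have := mul_eq_zero.mp h3
      rcases this with h4 | h4
      · exact_mod_cast h4
      · exact absurd h4 Real.pi_ne_zero
    have h2 := hind (fun i => g (some i)) (by
      simpa [Rat.smul_def] using hre)
    intro o
    cases o with
    | none => exact h1
    | some i => exact h2 i
  have := Pool.Agent.H297R2.baker_inhom
    (fun o : Option ι => Option.elim o ((Real.pi : ℂ) * Complex.I) (fun i => (r i : ℂ)))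
    (by
      intro o
      cases o with
      | none =>
        simp only [Option.elim]
        rw [Complex.exp_pi_mul_I]
        exact isAlgebraic_one.neg
      | some i => exact ae (hr i)) hlin a ha
    (fun o : Option ι => Option.elim o (-Complex.I * d) c)
    (by
      intro o
      cases o with
      | none => exact (LW.isAlgebraic_I.neg).mul hd
      | some i => exact hc i)
    (by
      rw [Fintype.sum_option]
      simp only [Option.elim]
      have hI := Complex.I_mul_I
      linear_combination h - d * (Real.pi : ℂ) * hI)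
  refine ⟨this.1, fun i => this.2 (some i), ?_⟩
  have h5 := this.2 none
  simp only [Option.elim] at h5
  rcases mul_eq_zero.mp h5 with h6 | h6
  · exact absurd (neg_eq_zero.mp h6) Complex.I_ne_zero
  · exact h6

theorem bk1 (r : ℝ) (hr : IsAlgebraic ℚ (Real.exp r)) (hr0 : r ≠ 0) (a b d : ℂ)
    (ha : IsAlgebraic ℚ a) (hb : IsAlgebraic ℚ b) (hd : IsAlgebraic ℚ d)
    (h : a + b * (r : ℂ) + d * (Real.pi : ℂ) = 0) : a = 0 ∧ b = 0 ∧ d = 0 := by
  have := bkn (ι := Unit) (fun _ => r) (fun _ => hr) (by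
    intro p hp i
    simp only [Finset.univ_unique, Finset.sum_singleton] at hp
    rcases mul_eq_zero.mp hp with h1 | h1
    · have : p default = 0 := by exact_mod_cast h1
      exact this
    · exact absurd h1 hr0) a d (fun _ => b) ha hd (fun _ => hb) (by simpa using h)
  exact ⟨this.1, this.2.1 (), this.2.2⟩

theorem bk2 (r s : ℝ) (hr : IsAlgebraic ℚ (Real.exp r)) (hs : IsAlgebraic ℚ (Real.exp s))
    (hind : ∀ p q : ℚ, (p : ℝ) * r + q * s = 0 → p = 0 ∧ q = 0) (a b c d : ℂ)
    (ha : IsAlgebraic ℚ a) (hb : IsAlgebraic ℚ b) (hc : IsAlgebraic ℚ c) (hd : IsAlgebraic ℚ d)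
    (h : a + b * (r : ℂ) + c * (s : ℂ) + d * (Real.pi : ℂ) = 0) :
    a = 0 ∧ b = 0 ∧ c = 0 ∧ d = 0 := by
  have := bkn (ι := Fin 2) ![r, s] (by
    intro i
    fin_cases i
    · exact hr
    · exact hs) (by
    intro p hp i
    rw [Fin.sum_univ_two] at hp
    have := hind (p 0) (p 1) hp
    fin_cases i
    · exact this.1
    · exact this.2) a d ![b, c] ha hd (by
    intro i
    fin_cases i
    · exact hb
    · exact hc) (by
    rw [Fin.sum_univ_two]
    simp only [Matrix.cons_val_zero, Matrix.cons_val_one]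
    linear_combination h)
  exact ⟨this.1, this.2.1 0, this.2.1 1, this.2.2⟩

theorem bk3 (r s t : ℝ) (hr : IsAlgebraic ℚ (Real.exp r)) (hs : IsAlgebraic ℚ (Real.exp s))
    (ht : IsAlgebraic ℚ (Real.exp t))
    (hind : ∀ p q u : ℚ, (p : ℝ) * r + q * s + u * t = 0 → p = 0 ∧ q = 0 ∧ u = 0)
    (a b c e d : ℂ)
    (ha : IsAlgebraic ℚ a) (hb : IsAlgebraic ℚ b) (hc : IsAlgebraic ℚ c) (he : IsAlgebraic ℚ e)
    (hd : IsAlgebraic ℚ d)
    (h : a + b * (r : ℂ) + c * (s : ℂ) + e * (t : ℂ) + d * (Real.pi : ℂ) = 0) :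
    a = 0 ∧ b = 0 ∧ c = 0 ∧ e = 0 ∧ d = 0 := by
  have := bkn (ι := Fin 3) ![r, s, t] (by
    intro i
    fin_cases i
    · exact hr
    · exact hs
    · exact ht) (by
    intro p hp i
    rw [Fin.sum_univ_three] at hp
    have := hind (p 0) (p 1) (p 2) hp
    fin_cases i
    · exact this.1
    · exact this.2.1
    · exact this.2.2) a d ![b, c, e] ha hd (by
    intro i
    fin_cases i
    · exact hb
    · exact hc
    · exact he) (by
    rw [Fin.sum_univ_three]
    simp only [Matrix.cons_val_zero, Matrix.cons_val_one, Matrix.cons_val]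
    linear_combination h)
  exact ⟨this.1, this.2.1 0, this.2.1 1, this.2.1 2, this.2.2⟩

/-- a real number whose exponential is algebraic is not a nonzero algebraic number -/
theorem zero_of_rat {q : ℚ} (h : IsAlgebraic ℚ (Real.exp (q : ℝ))) : q = 0 := by
  by_contra hq
  refine LW.transcendental_cexp ((q : ℝ) : ℂ) ?_ ?_ (ae h)
  · have : (((q : ℝ)) : ℂ) = algebraMap ℚ ℂ q := by simp
    rw [this]
    exact isAlgebraic_algebraMap q
  · exact_mod_cast hq

theorem alg_zpow {x : ℝ} (h : IsAlgebraic ℚ x) (n : ℤ) : IsAlgebraic ℚ (x ^ n) := by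
  obtain ⟨m, rfl | rfl⟩ := n.eq_nat_or_neg
  · rw [zpow_natCast]; exact h.pow m
  · rw [zpow_neg, zpow_natCast]; exact (h.pow m).inv

/-- powers: the exponential of a rational combination of logarithms is algebraic -/
theorem alg_comb {r s : ℝ} (hr : IsAlgebraic ℚ (Real.exp r)) (hs : IsAlgebraic ℚ (Real.exp s))
    (p q : ℤ) : IsAlgebraic ℚ (Real.exp (p * r + q * s)) := by
  rw [Real.exp_add, mul_comm (p : ℝ) r, mul_comm (q : ℝ) s, Real.exp_mul, Real.exp_mul,
    Real.rpow_intCast, Real.rpow_intCast]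
  exact (alg_zpow hr p).mul (alg_zpow hs q)

end Pool.Agent.H137R5.Tow
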