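import Pool.Agent.H137R5.TowFree

set_option autoImplicit false

/-!
Double exponentials `a ^ (e ^ x)` with `x` real algebraic.
-/

namespace Pool.Agent.H137R5.Tow

open Pool.Agent.H301R2.SSE Pool.Agent.H340R2 Pool.Agent.H462R2.PiE

/-- Lindemann-Weierstrass for three exponents -/
theorem exp_ind3 (x y t : ℂ) (hx : IsAlgebraic ℚ x) (hy : IsAlgebraic ℚ y) (ht : IsAlgebraic ℚ t)
    (hxy : x ≠ y) (hxt : x ≠ t) (hyt : y ≠ t) :
    Ind3 (Complex.exp x) (Complex.exp y) (Complex.exp t) := by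
  intro a b c ha hb hc h
  have := LW.lindemann_weierstrass (Finset.univ : Finset (Fin 3)) ![x, y, t] ![a, b, c]
    (by
      intro i _
      fin_cases i
      · exact hx
      · exact hy
      · exact ht)
    (by
      intro i _
      fin_cases i
      · exact ha
      · exact hb
      · exact hc)
    (by
      intro i _ j _ hij
      fin_cases i <;> fin_cases j <;> simp_all [eq_comm])
    (by simp [Fin.sum_univ_three, h])
  exact ⟨this 0 (Finset.mem_univ _), this 1 (Finset.mem_univ _), this 2 (Finset.mem_univ _)⟩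

theorem exp_tr {r : ℝ} (hr : IsAlgebraic ℚ r) (hr0 : r ≠ 0) : Transcendental ℚ (Real.exp r) := by
  intro h
  refine LW.transcendental_cexp (r : ℂ) (alg_ofReal hr) (by exact_mod_cast hr0) ?_
  rw [← Complex.ofReal_exp]
  exact alg_ofReal h

/-- `e ^ x * L` is a linear form in logarithms -/
def InX (L x : ℝ) : Prop := ((Real.exp x * L : ℝ) : ℂ) ∈ Lt

theorem exp_two (L : ℝ) (hL : L ≠ 0) (r : ℝ) (hr : IsAlgebraic ℚ r) (hr0 : r ≠ 0)
    (x y t : ℝ) (hx : IsAlgebraic ℚ x) (hy : IsAlgebraic ℚ y) (ht : IsAlgebraic ℚ t)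
    (hxy : x ≠ y) (hxt : x ≠ t) (hyt : y ≠ t)
    (ex : InX L x) (ey : InX L y) (et : InX L t)
    (ex' : InX L (x + r)) (ey' : InX L (y + r)) (et' : InX L (t + r)) : False := by
  have hLc : (L : ℂ) ≠ 0 := by exact_mod_cast hL
  have h3 := (exp_ind3 (x : ℂ) (y : ℂ) (t : ℂ) (alg_ofReal hx) (alg_ofReal hy) (alg_ofReal ht)
    (by exact_mod_cast hxy) (by exact_mod_cast hxt) (by exact_mod_cast hyt)).smul hLc
  have base : ∀ s : ℝ, InX L s → (L : ℂ) * Complex.exp (s : ℂ) ∈ Lt := by
    intro s hs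
    unfold InX at hs
    have : (L : ℂ) * Complex.exp (s : ℂ) = ((Real.exp s * L : ℝ) : ℂ) := by push_cast; ring
    rw [this]
    exact hs
  have shift : ∀ s : ℝ, InX L (s + r) →
      ((Real.exp r : ℝ) : ℂ) * ((L : ℂ) * Complex.exp (s : ℂ)) ∈ Lt := by
    intro s hs
    unfold InX at hs
    have : ((Real.exp r : ℝ) : ℂ) * ((L : ℂ) * Complex.exp (s : ℂ)) =
        ((Real.exp (s + r) * L : ℝ) : ℂ) := by
      rw [Real.exp_add]; push_cast; ring
    rw [this]
    exact hs
  exact core (Real.exp r) (exp_tr hr hr0) _ _ _ h3 (base x ex) (base y ey) (base t et)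
    (shift x ex') (shift y ey') (shift t et')

/-- sets in which every nonzero difference occurs at most twice -/
theorem card_of_diff' (S D : Finset ℝ) (hD : ∀ x ∈ S, ∀ y ∈ S, x ≠ y → y - x ∈ D)
    (h : ∀ r : ℝ, r ≠ 0 → ∀ k ∈ S, ∀ l ∈ S, ∀ m ∈ S, k + r ∈ S → l + r ∈ S → m + r ∈ S →
      k ≠ l → k ≠ m → l ≠ m → False) :
    S.card * S.card ≤ S.card + 2 * D.card := by
  classical
  have h1 := Finset.card_le_mul_card_image (f := fun x : ℝ × ℝ => x.2 - x.1) S.offDiag 2 (by
    intro r hr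
    obtain ⟨x, hx, hxr⟩ := Finset.mem_image.mp hr
    have hr0 : r ≠ 0 := by
      rw [Finset.mem_offDiag] at hx
      intro h0
      apply hx.2.2
      linarith
    by_contra hcon
    push Not at hcon
    obtain ⟨u, hu, v, hv, w, hw, huv, huw, hvw⟩ := Finset.two_lt_card.mp hcon
    rw [Finset.mem_filter, Finset.mem_offDiag] at hu hv hw
    have e1 : u.1 + r = u.2 := by linarith [hu.2]
    have e2 : v.1 + r = v.2 := by linarith [hv.2]
    have e3 : w.1 + r = w.2 := by linarith [hw.2]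
    refine h r hr0 u.1 hu.1.1 v.1 hv.1.1 w.1 hw.1.1 (e1 ▸ hu.1.2.1) (e2 ▸ hv.1.2.1)
      (e3 ▸ hw.1.2.1) ?_ ?_ ?_
    · intro he
      apply huv
      ext
      · exact he
      · linarith
    · intro he
      apply huw
      ext
      · exact he
      · linarith
    · intro he
      apply hvw
      ext
      · exact he
      · linarith)
  have h2 : (S.offDiag.image (fun x : ℝ × ℝ => x.2 - x.1)).card ≤ D.card := by
    apply Finset.card_le_card
    intro r hr
    obtain ⟨x, hx, hxr⟩ := Finset.mem_image.mp hr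
    rw [Finset.mem_offDiag] at hx
    rw [← hxr]
    exact hD _ hx.1 _ hx.2.1 hx.2.2
  rw [Finset.offDiag_card] at h1
  have h3 : S.card ≤ S.card * S.card := Nat.le_mul_self _
  omega

theorem inX_of {a : ℝ} (ha : 0 < a) {x : ℝ} (h : ¬ Free (a ^ Real.exp x)) :
    InX (Real.log a) x := by
  have h1 := bad_rpow ha (bad_of_not_free h)
  unfold InX
  push_cast at h1 ⊢
  exact h1

theorem inE_of {a : ℝ} (ha : 0 < a) {z : ℝ} {k : ℕ} (h : ¬ Free (a ^ (z ^ k))) :
    InE z (Real.log a) k := by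
  have h1 := bad_rpow ha (bad_of_not_free h)
  unfold InE
  push_cast at h1 ⊢
  exact h1

end Pool.Agent.H137R5.Tow
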