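import Pool.Agent.H137R5.TowBase
import Pool.Agent.H297R2.Dense

set_option autoImplicit false

/-!
Towers of height three, one entry varying.
-/

namespace Pool.Agent.H137R5.Tow

open Pool.Agent.H301R2.SSE Pool.Agent.H340R2 Pool.Agent.H462R2.PiE

/-- linear independence over the algebraic numbers of three complex numbers -/
def Ind3 (y0 y1 y2 : ℂ) : Prop :=
  ∀ a c d : ℂ, IsAlgebraic ℚ a → IsAlgebraic ℚ c → IsAlgebraic ℚ d →
      a * y0 + c * y1 + d * y2 = 0 → a = 0 ∧ c = 0 ∧ d = 0

theorem Ind3.smul {y0 y1 y2 : ℂ} (h : Ind3 y0 y1 y2) {u : ℂ} (hu : u ≠ 0) :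
    Ind3 (u * y0) (u * y1) (u * y2) := by
  intro a c d ha hc hd hs
  refine h a c d ha hc hd ?_
  apply mul_left_cancel₀ hu
  rw [mul_zero, ← hs]; ring

/-- either `1, P, Q` or `1, P, PQ` are independent when `P` and `Q` are transcendental -/
theorem square (P Q : ℂ) (hP : Transcendental ℚ P) (hQ : Transcendental ℚ Q) :
    Ind3 1 P Q ∨ Ind3 1 P (P * Q) := by
  have one : ∀ a c : ℂ, IsAlgebraic ℚ a → IsAlgebraic ℚ c → a + c * P = 0 → a = 0 ∧ c = 0 := by
    intro a c ha hc h
    by_cases hc0 : c = 0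
    · subst hc0
      exact ⟨by simpa using h, rfl⟩
    · exfalso
      apply hP
      have : P = -a / c := by
        field_simp
        linear_combination h
      rw [this]
      exact (ha.neg).mul hc.inv
  by_contra hcon
  rw [not_or] at hcon
  obtain ⟨h1, h2⟩ := hcon
  unfold Ind3 at h1 h2
  push Not at h1 h2
  obtain ⟨a, c, d, ha, hc, hd, hs, hne⟩ := h1
  obtain ⟨a', c', d', ha', hc', hd', hs', hne'⟩ := h2
  have hd0 : d ≠ 0 := by
    intro hd0
    subst hd0
    obtain ⟨h3, h4⟩ := one a c ha hc (by linear_combination hs)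
    exact hne h3 h4 rfl
  have hd0' : d' ≠ 0 := by
    intro hd0
    subst hd0
    obtain ⟨h3, h4⟩ := one a' c' ha' hc' (by linear_combination hs')
    exact hne' h3 h4 rfl
  -- `Q = A + B P`, `P Q = C + D P`
  have e1 : Q = -a / d + (-c / d) * P := by
    field_simp
    linear_combination hs
  have e2 : P * Q = -a' / d' + (-c' / d') * P := by
    field_simp
    linear_combination hs'
  have hA : IsAlgebraic ℚ (-a / d) := (ha.neg).mul hd.inv
  have hB : IsAlgebraic ℚ (-c / d) := (hc.neg).mul hd.inv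
  have hC : IsAlgebraic ℚ (-a' / d') := (ha'.neg).mul hd'.inv
  have hD : IsAlgebraic ℚ (-c' / d') := (hc'.neg).mul hd'.inv
  set A := -a / d with hAe
  set B := -c / d with hBe
  set C := -a' / d' with hCe
  set D := -c' / d' with hDe
  have e3 : B * P ^ 2 + (A - D) * P - C = 0 := by
    rw [e1] at e2
    linear_combination e2
  have hB0 : B = 0 := by
    by_contra hB0
    apply hP
    have h5 : (2 * B * P + (A - D)) ^ 2 = (A - D) ^ 2 + 4 * B * C := by
      linear_combination 4 * B * e3
    have h2a : IsAlgebraic ℚ (2 : ℂ) := by exact_mod_cast isAlgebraic_natCast 2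
    have h4a : IsAlgebraic ℚ (4 : ℂ) := by exact_mod_cast isAlgebraic_natCast 4
    have h6 : IsAlgebraic ℚ ((2 * B * P + (A - D)) ^ 2) := by
      rw [h5]
      exact ((hA.sub hD).pow 2).add ((h4a.mul hB).mul hC)
    have h7 := h6.of_pow (by norm_num)
    have h8 : P = ((2 * B * P + (A - D)) - (A - D)) / (2 * B) := by
      field_simp
      ring
    rw [h8]
    exact (h7.sub (hA.sub hD)).mul (h2a.mul hB).inv
  apply hQ
  rw [e1, hB0, zero_mul, add_zero]
  exact hA

/-- three different powers of a transcendental number are independent -/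
theorem powers (z : ℂ) (hz : Transcendental ℚ z) (k l m : ℕ) (hkl : k ≠ l) (hkm : k ≠ m)
    (hlm : l ≠ m) : Ind3 (z ^ k) (z ^ l) (z ^ m) := by
  intro a c d ha hc hd hs
  let a' : QB := ⟨a, mem_QB.mpr ha⟩
  let c' : QB := ⟨c, mem_QB.mpr hc⟩
  let d' : QB := ⟨d, mem_QB.mpr hd⟩
  let p : Polynomial QB := Polynomial.C a' * Polynomial.X ^ k + Polynomial.C c' * Polynomial.X ^ l +
    Polynomial.C d' * Polynomial.X ^ m
  have hp : Polynomial.aeval z p = 0 := by
    simp only [p, map_add, map_mul, map_pow, Polynomial.aeval_C, Polynomial.aeval_X]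
    exact hs
  have hp0 : p = 0 := by
    by_contra hne
    have h1 : IsAlgebraic QB z := ⟨p, hne, hp⟩
    haveI : Algebra.IsAlgebraic ℚ QB := algebraicClosure.isAlgebraic ℚ ℂ
    exact hz (h1.restrictScalars ℚ)
  have hk := congrArg (fun q => Polynomial.coeff q k) hp0
  have hl := congrArg (fun q => Polynomial.coeff q l) hp0
  have hm := congrArg (fun q => Polynomial.coeff q m) hp0
  simp only [p, Polynomial.coeff_add, Polynomial.coeff_C_mul, Polynomial.coeff_X_pow,
    Polynomial.coeff_zero] at hk hl hm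
  simp [hkl, hkm, hlm, hkl.symm, hkm.symm, hlm.symm] at hk hl hm
  refine ⟨?_, ?_, ?_⟩
  · exact congrArg Subtype.val hk
  · exact congrArg Subtype.val hl
  · exact congrArg Subtype.val hm

/-- Gelfond-Schneider from Baker's theorem, real case -/
theorem gs {b c : ℝ} (hb : 0 < b) (hb1 : b ≠ 1) (hba : IsAlgebraic ℚ b) (hca : IsAlgebraic ℚ c)
    (hc : Irrational c) : Transcendental ℚ (b ^ c) := by
  intro h
  have hlog : Real.log b ≠ 0 := by
    intro h0
    rcases Real.log_eq_zero.mp h0 with h1 | h1 | h1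
    · exact hb.ne' h1
    · exact hb1 h1
    · linarith
  have h1 := bk2 (Real.log b) (c * Real.log b) (by rw [Real.exp_log hb]; exact hba) (by
      rw [mul_comm, ← Real.rpow_def_of_pos hb]
      exact h) (by
      intro p q hpq
      have h2 : ((p : ℝ) + q * c) = 0 := by
        apply mul_right_cancel₀ hlog
        rw [zero_mul, ← hpq]; ring
      by_cases hq : q = 0
      · subst hq
        refine ⟨?_, rfl⟩
        simpa using h2
      · exfalso
        apply hc
        refine ⟨-p / q, ?_⟩
        have hq' : (q : ℝ) ≠ 0 := by exact_mod_cast hq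
        push_cast
        field_simp
        linarith) 0 ((c : ℝ) : ℂ) (-1) 0 isAlgebraic_zero (alg_ofReal hca) isAlgebraic_one.neg
        isAlgebraic_zero (by push_cast; ring)
  exact (neg_ne_zero.mpr one_ne_zero) h1.2.2.1

theorem trC {b : ℝ} (hb : Transcendental ℚ b) : Transcendental ℚ (b : ℂ) :=
  fun h => hb (alg_ofReal_iff.mp h)

end Pool.Agent.H137R5.Tow
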