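import Pool.Agent.H137R5.TowTop

set_option autoImplicit false

/-!
Free numbers: positive real numbers whose logarithm is not a linear form in `1` and logarithms
of algebraic numbers.
-/

namespace Pool.Agent.H137R5.Tow

open Pool.Agent.H301R2.SSE

/-- `t` is *free*: its logarithm is not of the form `γ + β₁ l₁ + ... + βₘ lₘ` with `γ`, the `βᵢ`
and the exponentials of the `lᵢ` algebraic (complex) numbers, i.e. `t` is not of the form
`e ^ γ * α₁ ^ β₁ * ... * αₘ ^ βₘ`. -/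
def Free (t : ℝ) : Prop :=
  ∀ (m : ℕ) (γ : ℂ) (β l : Fin m → ℂ), IsAlgebraic ℚ γ → (∀ i, IsAlgebraic ℚ (β i)) →
    (∀ i, IsAlgebraic ℚ (Complex.exp (l i))) → ((Real.log t : ℝ) : ℂ) ≠ γ + ∑ i, β i * l i

theorem bad_of_not_free {t : ℝ} (h : ¬ Free t) : Bad t := by
  unfold Free at h
  push Not at h
  obtain ⟨m, γ, β, l, hγ, hβ, hl, h⟩ := h
  unfold Bad
  rw [h]
  refine Lt.add_mem (Lt_alg hγ) (Submodule.sum_mem _ fun i _ => Lt_mul (hβ i) (Lt_log (hl i)))

theorem free_pow {t : ℝ} (h : Free t) (γ δ : ℂ) (hγ : IsAlgebraic ℚ γ) (hδ : IsAlgebraic ℚ δ)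
    (hδ0 : δ ≠ 0) : Transcendental ℚ (Complex.exp (γ + δ * ((Real.log t : ℝ) : ℂ))) := by
  intro hcon
  refine h 1 (-γ / δ) (fun _ => 1 / δ) (fun _ => γ + δ * ((Real.log t : ℝ) : ℂ)) ?_ ?_ ?_ ?_
  · exact hγ.neg.mul hδ.inv
  · intro _
    exact isAlgebraic_one.mul hδ.inv
  · intro _
    exact hcon
  · rw [Fin.sum_univ_one]
    field_simp
    ring

theorem free_tr {t : ℝ} (ht : 0 < t) (hf : Free t) : Transcendental ℚ t := by
  intro halg
  have h1 := free_pow hf 0 1 isAlgebraic_zero isAlgebraic_one one_ne_zero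
  apply h1
  rw [zero_add, one_mul, ← Complex.ofReal_exp, Real.exp_log ht]
  exact Pool.Agent.H462R2.PiE.alg_ofReal halg

end Pool.Agent.H137R5.Tow
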