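import Pool.Agent.H137R5.TowFam

set_option autoImplicit false

/-!
The three counting theorems for towers.
-/

namespace Pool.Agent.H137R5.Tow

open Pool.Agent.H301R2.SSE Pool.Agent.H340R2 Pool.Agent.H462R2.PiE

/-- the logarithm of `t` is a linear form in `1` and logarithms of algebraic numbers -/
def Bad (t : ℝ) : Prop := ((Real.log t : ℝ) : ℂ) ∈ Lt

theorem bad_rpow {a : ℝ} (ha : 0 < a) {s : ℝ} (h : Bad (a ^ s)) :
    (s : ℂ) * ((Real.log a : ℝ) : ℂ) ∈ Lt := by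
  unfold Bad at h
  rw [Real.log_rpow ha] at h
  push_cast at h
  exact h

theorem log_mem' {a : ℝ} (ha : 0 < a) (haa : IsAlgebraic ℚ a) : ((Real.log a : ℝ) : ℂ) ∈ Lt := by
  apply lt_of
  rw [Real.exp_log ha]
  exact haa

theorem log_ne {a : ℝ} (ha : 0 < a) (ha1 : a ≠ 1) : Real.log a ≠ 0 := by
  intro h0
  rcases Real.log_eq_zero.mp h0 with h1 | h1 | h1
  · exact ha.ne' h1
  · exact ha1 h1
  · linarith

open Classical in
/-- varying the base -/
theorem baseCount (z : ℝ) (hz : Transcendental ℚ z) (N : ℕ) :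
    ((Finset.Icc 2 N).filter (fun n : ℕ => Bad ((n : ℝ) ^ z))).card ≤ (Nat.log 2 N + 1) ^ 2 := by
  apply card_two _ N
  · intro n hn
    exact Finset.mem_Icc.mp (Finset.mem_filter.mp hn).1
  · intro l hl m hm n hn hi
    rw [Finset.mem_filter, Finset.mem_Icc] at hl hm hn
    have h2 : ∀ i, 2 ≤ (![l, m, n] : Fin 3 → ℕ) i := by
      intro i
      fin_cases i
      · exact hl.1.1
      · exact hm.1.1
      · exact hn.1.1
    have pos : ∀ k : ℕ, 2 ≤ k → (0 : ℝ) < k := fun k hk => by positivity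
    refine core z hz ((Real.log l : ℝ) : ℂ) ((Real.log m : ℝ) : ℂ) ((Real.log n : ℝ) : ℂ) ?_
      (log_mem l hl.1.1) (log_mem m hm.1.1) (log_mem n hn.1.1)
      (bad_rpow (pos l hl.1.1) hl.2) (bad_rpow (pos m hm.1.1) hm.2) (bad_rpow (pos n hn.1.1) hn.2)
    intro a c d ha hc hd hs
    have := baker_log ![l, m, n] h2 hi 0 isAlgebraic_zero ![a, c, d] (by
      intro i
      fin_cases i
      · exact ha
      · exact hc
      · exact hd) (by
      rw [Fin.sum_univ_three]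
      simp only [Matrix.cons_val_zero, Matrix.cons_val_one, Matrix.cons_val]
      linear_combination hs)
    exact ⟨this.2 0, this.2 1, this.2 2⟩

open Classical in
/-- varying the middle entry -/
theorem midCount (a c : ℝ) (ha : 0 < a) (ha1 : a ≠ 1) (hca : IsAlgebraic ℚ c)
    (hci : Irrational c) (ε : ℝ) (hε : 0 < ε) : ∃ N0 : ℕ, ∀ N ≥ N0,
      (((Finset.Icc 1 N).filter (fun n : ℕ => Bad (a ^ ((n : ℝ) ^ c)))).card : ℝ) ≤ ε * N := by
  obtain ⟨x0, hx0⟩ := Pool.Agent.H297R2.dense_cube 3 ε hε 1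
  refine ⟨x0, fun N hN => ?_⟩
  by_contra hcon
  push Not at hcon
  obtain ⟨a0, p, q, ha0, hp, hq, hinj, hcube⟩ := hx0 N hN
    ((Finset.Icc 1 N).filter (fun n : ℕ => Bad (a ^ ((n : ℝ) ^ c)))) (by
      intro n hn
      rw [Finset.mem_filter, Finset.mem_Icc] at hn
      rw [Finset.mem_Ioc]
      omega) hcon.le
  have hL := log_ne ha ha1
  have hpp : ∀ i, (0 : ℝ) < p i := fun i => by exact_mod_cast (hp i).1.pos
  have hqp : ∀ i, (0 : ℝ) < q i := fun i => by exact_mod_cast (hq i).1.pos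
  have ha0' : (0 : ℝ) < a0 := by exact_mod_cast ha0
  have hmem : ∀ S : Finset (Fin 3), ((((a0 : ℝ) ^ c * ((if (0 : Fin 3) ∈ S then (q 0 : ℝ) ^ c else (p 0 : ℝ) ^ c) *
      (if (1 : Fin 3) ∈ S then (q 1 : ℝ) ^ c else (p 1 : ℝ) ^ c) *
      (if (2 : Fin 3) ∈ S then (q 2 : ℝ) ^ c else (p 2 : ℝ) ^ c)) : ℝ) : ℂ)) *
      ((Real.log a : ℝ) : ℂ) ∈ Lt := by
    intro S
    have h1 := (Finset.mem_filter.mp (hcube S)).2
    have h2 := bad_rpow ha h1
    rw [Fin.prod_univ_three] at h2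
    have h3 : ((a0 * ((if (0 : Fin 3) ∈ S then q 0 else p 0) * (if (1 : Fin 3) ∈ S then q 1 else p 1) *
        (if (2 : Fin 3) ∈ S then q 2 else p 2)) : ℕ) : ℝ) ^ c =
        (a0 : ℝ) ^ c * ((if (0 : Fin 3) ∈ S then (q 0 : ℝ) ^ c else (p 0 : ℝ) ^ c) *
      (if (1 : Fin 3) ∈ S then (q 1 : ℝ) ^ c else (p 1 : ℝ) ^ c) *
      (if (2 : Fin 3) ∈ S then (q 2 : ℝ) ^ c else (p 2 : ℝ) ^ c)) := by
      have e : ∀ i : Fin 3, (0 : ℝ) ≤ ((if i ∈ S then q i else p i : ℕ) : ℝ) := fun i => by positivity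
      have e2 : ∀ i : Fin 3, ((if i ∈ S then q i else p i : ℕ) : ℝ) ^ c =
          (if i ∈ S then (q i : ℝ) ^ c else (p i : ℝ) ^ c) := by
        intro i
        split_ifs <;> rfl
      rw [Nat.cast_mul, Nat.cast_mul, Nat.cast_mul,
        Real.mul_rpow ha0'.le (mul_nonneg (mul_nonneg (e 0) (e 1)) (e 2)),
        Real.mul_rpow (mul_nonneg (e 0) (e 1)) (e 2), Real.mul_rpow (e 0) (e 1), e2, e2, e2]
    rw [h3] at h2
    exact h2
  have ratio : ∀ i : Fin 3, Transcendental ℚ ((q i : ℝ) ^ c / (p i : ℝ) ^ c) := by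
    intro i
    rw [← Real.div_rpow (hqp i).le (hpp i).le]
    apply gs (div_pos (hqp i) (hpp i)) ?_ ?_ hca hci
    · intro h
      rw [div_eq_one_iff_eq (hpp i).ne'] at h
      have h4 : q i = p i := by exact_mod_cast h
      have h5 := hinj (a₁ := Sum.inl i) (a₂ := Sum.inr i) (by simp [h4])
      exact absurd h5 (by simp)
    · have : (q i : ℝ) / (p i : ℝ) = algebraMap ℚ ℝ ((q i : ℚ) / (p i : ℚ)) := by simp
      rw [this]
      exact isAlgebraic_algebraMap _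
  -- abbreviations
  have hP0 : (p 0 : ℝ) ^ c ≠ 0 := (Real.rpow_pos_of_pos (hpp 0) c).ne'
  have hP1 : (p 1 : ℝ) ^ c ≠ 0 := (Real.rpow_pos_of_pos (hpp 1) c).ne'
  have hP2 : (p 2 : ℝ) ^ c ≠ 0 := (Real.rpow_pos_of_pos (hpp 2) c).ne'
  have hA0 : (a0 : ℝ) ^ c ≠ 0 := (Real.rpow_pos_of_pos ha0' c).ne'
  have m000 := hmem ∅
  have m100 := hmem {0}
  have m010 := hmem {1}
  have m110 := hmem {0, 1}
  have m001 := hmem {2}
  have m101 := hmem {0, 2}
  have m011 := hmem {1, 2}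
  have m111 := hmem {0, 1, 2}
  have t0 := ratio 0
  have t1 := ratio 1
  have t2 := ratio 2
  generalize (a0 : ℝ) ^ c = A at *
  generalize (p 0 : ℝ) ^ c = P0 at *
  generalize (p 1 : ℝ) ^ c = P1 at *
  generalize (p 2 : ℝ) ^ c = P2 at *
  generalize (q 0 : ℝ) ^ c = Q0 at *
  generalize (q 1 : ℝ) ^ c = Q1 at *
  generalize (q 2 : ℝ) ^ c = Q2 at *
  generalize Real.log a = L at *
  simp only [Finset.notMem_empty, Finset.mem_singleton, Finset.mem_insert, if_false, if_true,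
    Fin.isValue, zero_ne_one, one_ne_zero, Fin.reduceEq, or_false, or_true, false_or, true_or]
    at m000 m100 m010 m110 m001 m101 m011 m111
  push_cast at m000 m100 m010 m110 m001 m101 m011 m111
  have cP0 : (P0 : ℂ) ≠ 0 := by exact_mod_cast hP0
  have cP1 : (P1 : ℂ) ≠ 0 := by exact_mod_cast hP1
  have cP2 : (P2 : ℂ) ≠ 0 := by exact_mod_cast hP2
  have cA : (A : ℂ) ≠ 0 := by exact_mod_cast hA0
  have cL : (L : ℂ) ≠ 0 := by exact_mod_cast hL
  set u : ℂ := (A : ℂ) * (P0 * P1 * P2) * L with hu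
  have hu0 : u ≠ 0 := by
    rw [hu]
    exact mul_ne_zero (mul_ne_zero cA (mul_ne_zero (mul_ne_zero cP0 cP1) cP2)) cL
  have e100 : u * ((Q0 : ℂ) / P0) = A * (Q0 * P1 * P2) * L := by rw [hu]; field_simp
  have e010 : u * ((Q1 : ℂ) / P1) = A * (P0 * Q1 * P2) * L := by rw [hu]; field_simp
  have e110 : u * ((Q0 : ℂ) / P0 * ((Q1 : ℂ) / P1)) = A * (Q0 * Q1 * P2) * L := by
    rw [hu]; field_simp
  have b000 : (((Q2 / P2 : ℝ)) : ℂ) * (u * 1) = A * (P0 * P1 * Q2) * L := by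
    rw [hu]; push_cast; field_simp
  have b100 : (((Q2 / P2 : ℝ)) : ℂ) * (u * ((Q0 : ℂ) / P0)) = A * (Q0 * P1 * Q2) * L := by
    rw [hu]; push_cast; field_simp
  have b010 : (((Q2 / P2 : ℝ)) : ℂ) * (u * ((Q1 : ℂ) / P1)) = A * (P0 * Q1 * Q2) * L := by
    rw [hu]; push_cast; field_simp
  have b110 : (((Q2 / P2 : ℝ)) : ℂ) * (u * ((Q0 : ℂ) / P0 * ((Q1 : ℂ) / P1))) =
      A * (Q0 * Q1 * Q2) * L := by
    rw [hu]; push_cast; field_simp
  have s0 : Transcendental ℚ ((Q0 : ℂ) / P0) := by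
    have := trC t0
    push_cast at this
    exact this
  have s1 : Transcendental ℚ ((Q1 : ℂ) / P1) := by
    have := trC t1
    push_cast at this
    exact this
  rcases square _ _ s0 s1 with h | h
  · refine core (Q2 / P2) t2 (u * 1) (u * ((Q0 : ℂ) / P0)) (u * ((Q1 : ℂ) / P1)) (h.smul hu0)
      ?_ ?_ ?_ ?_ ?_ ?_
    · rw [mul_one]; exact m000
    · rw [e100]; exact m100
    · rw [e010]; exact m010
    · rw [b000]; exact m001
    · rw [b100]; exact m101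
    · rw [b010]; exact m011
  · refine core (Q2 / P2) t2 (u * 1) (u * ((Q0 : ℂ) / P0)) (u * ((Q0 : ℂ) / P0 * ((Q1 : ℂ) / P1)))
      (h.smul hu0) ?_ ?_ ?_ ?_ ?_ ?_
    · rw [mul_one]; exact m000
    · rw [e100]; exact m100
    · rw [e110]; exact m110
    · rw [b000]; exact m001
    · rw [b100]; exact m101
    · rw [b110]; exact m111

end Pool.Agent.H137R5.Tow
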