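import Pool.Agent.H137R5.TowFree

set_option autoImplicit false

/-!
If `2 ^ z` is algebraic, `z` transcendental, at most one of five numbers is algebraic.
-/

namespace Pool.Agent.H137R5.Tow

open Pool.Agent.H301R2.SSE Pool.Agent.H340R2 Pool.Agent.H462R2.PiE

theorem rat_of_tr {z : ℝ} (hz : Transcendental ℚ z) (p q : ℚ) (h : (p : ℝ) + q * z = 0) :
    p = 0 ∧ q = 0 := by
  by_cases hq : q = 0
  · subst hq
    refine ⟨?_, rfl⟩
    simpa using h
  · exfalso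
    apply hz
    have hq' : (q : ℝ) ≠ 0 := by exact_mod_cast hq
    have : z = algebraMap ℚ ℝ (-p / q) := by
      simp only [eq_ratCast]
      push_cast
      field_simp
      linarith
    rw [this]
    exact isAlgebraic_algebraMap _

section

variable (z L : ℝ)

/-- `y`-values -/
noncomputable def Yv : Fin 5 → ℝ := ![z * L, L / z, 1, 1 / z, Real.pi]

/-- the hypotheses -/
def Pv : Fin 5 → Prop := ![IsAlgebraic ℚ (Real.exp (z * (z * L))), IsAlgebraic ℚ (Real.exp (L / z)),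
  IsAlgebraic ℚ (Real.exp z), IsAlgebraic ℚ (Real.exp (1 / z)), IsAlgebraic ℚ (Real.exp (z * Real.pi))]

variable {z L}

theorem Yv_mem (hz0 : z ≠ 0) (hL : IsAlgebraic ℚ (Real.exp L))
    (hw : IsAlgebraic ℚ (Real.exp (z * L))) (i : Fin 5)
    (h : Pv z L i) : ((Yv z L i : ℝ) : ℂ) ∈ Lt ∧ (z : ℂ) * ((Yv z L i : ℝ) : ℂ) ∈ Lt := by
  rw [← Complex.ofReal_mul]
  fin_cases i
  · exact ⟨lt_of hw, lt_of h⟩
  · refine ⟨lt_of h, ?_⟩
    show ((z * (L / z) : ℝ) : ℂ) ∈ Lt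
    rw [mul_div_cancel₀ L hz0]
    exact lt_of hL
  · refine ⟨?_, ?_⟩
    · show ((1 : ℝ) : ℂ) ∈ Lt
      rw [Complex.ofReal_one]; exact Lt_one
    · show ((z * 1 : ℝ) : ℂ) ∈ Lt
      rw [mul_one]; exact lt_of h
  · refine ⟨lt_of h, ?_⟩
    show ((z * (1 / z) : ℝ) : ℂ) ∈ Lt
    rw [mul_one_div_cancel hz0, Complex.ofReal_one]; exact Lt_one
  · exact ⟨pi_mem, lt_of h⟩

theorem alg0 : IsAlgebraic ℚ (0 : ℂ) := isAlgebraic_zero

theorem Yv_ind (hz : Transcendental ℚ z) (hL0 : L ≠ 0) (hL : IsAlgebraic ℚ (Real.exp L))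
    (hw : IsAlgebraic ℚ (Real.exp (z * L))) (i j : Fin 5) (hij : i < j)
    (hi : Pv z L i) (hj : Pv z L j) : Ind3 (L : ℂ) ((Yv z L i : ℝ) : ℂ) ((Yv z L j : ℝ) : ℂ) := by
  have hz0 : z ≠ 0 := by
    intro h
    apply hz
    rw [h]
    exact isAlgebraic_zero
  have cz0 : (z : ℂ) ≠ 0 := by exact_mod_cast hz0
  have cL0 : (L : ℂ) ≠ 0 := by exact_mod_cast hL0
  have I1 : ∀ p q : ℚ, (p : ℝ) * L + q * (z * L) = 0 → p = 0 ∧ q = 0 := by
    intro p q h
    apply rat_of_tr hz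
    apply mul_right_cancel₀ hL0
    rw [zero_mul, ← h]; ring
  have I2 : ∀ p q : ℚ, (p : ℝ) * (z * L) + q * (z * (z * L)) = 0 → p = 0 ∧ q = 0 := by
    intro p q h
    apply rat_of_tr hz
    apply mul_right_cancel₀ (mul_ne_zero hz0 hL0)
    rw [zero_mul, ← h]; ring
  have I3 : ∀ p q : ℚ, (p : ℝ) * L + q * (L / z) = 0 → p = 0 ∧ q = 0 := by
    intro p q h
    have := rat_of_tr hz q p (by
      apply mul_right_cancel₀ (div_ne_zero hL0 hz0)
      rw [zero_mul, ← h]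
      field_simp
      ring)
    exact ⟨this.2, this.1⟩
  have I4 : ∀ p q : ℚ, (p : ℝ) * L + q * (1 / z) = 0 → p = 0 ∧ q = 0 := by
    intro p q h
    have h1 : (p : ℝ) * (z * L) = -q := by
      have h2 : z * ((p : ℝ) * L + q * (1 / z)) = 0 := by rw [h, mul_zero]
      have h3 : z * ((p : ℝ) * L + q * (1 / z)) = p * (z * L) + q := by
        field_simp
      rw [h3] at h2
      linarith
    by_cases hp : p = 0
    · subst hp
      refine ⟨rfl, ?_⟩
      have h2 : (q : ℝ) = 0 := by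
        have : ((0 : ℚ) : ℝ) = 0 := by norm_num
        rw [this] at h1
        linarith
      exact_mod_cast h2
    · exfalso
      have hp' : (p : ℝ) ≠ 0 := by exact_mod_cast hp
      have h2 : z * L = ((-q / p : ℚ) : ℝ) := by
        push_cast
        field_simp
        linarith
      have h3 : IsAlgebraic ℚ (Real.exp (((-q / p : ℚ)) : ℝ)) := by rw [← h2]; exact hw
      have h4 := zero_of_rat h3
      rw [h4] at h2
      exact mul_ne_zero hz0 hL0 (by rw [h2]; norm_num)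
  intro a c d ha hc hd hs
  fin_cases i <;> fin_cases j <;> first
    | exact absurd hij (by decide)
    | skip
  · -- `z L`, `L / z`
    have h1 : d * (z : ℂ) ^ 0 + a * (z : ℂ) ^ 1 + c * (z : ℂ) ^ 2 = 0 := by
      have h2 : a * (L : ℂ) + c * ((z * L : ℝ) : ℂ) + d * ((L / z : ℝ) : ℂ) = 0 := hs
      push_cast at h2
      have h3 : (L : ℂ) * (d * (z : ℂ) ^ 0 + a * (z : ℂ) ^ 1 + c * (z : ℂ) ^ 2) = 0 := by
        have h4 : (L : ℂ) * (d * (z : ℂ) ^ 0 + a * (z : ℂ) ^ 1 + c * (z : ℂ) ^ 2) =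
            (z : ℂ) * (a * (L : ℂ) + c * ((z : ℂ) * L) + d * ((L : ℂ) / z)) := by
          field_simp
          ring
        rw [h4, h2, mul_zero]
      exact (mul_eq_zero.mp h3).resolve_left cL0
    have h5 := powers (z : ℂ) (trC hz) 0 1 2 (by norm_num) (by norm_num) (by norm_num) d a c hd ha hc h1
    exact ⟨h5.2.1, h5.2.2, h5.1⟩
  · -- `z L`, `1`
    have h2 : a * (L : ℂ) + c * ((z * L : ℝ) : ℂ) + d * ((1 : ℝ) : ℂ) = 0 := hs
    have h3 := bk2 L (z * L) hL hw I1 d a c 0 hd ha hc alg0 (by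
      rw [Complex.ofReal_one] at h2
      linear_combination h2)
    exact ⟨h3.2.1, h3.2.2.1, h3.1⟩
  · -- `z L`, `1 / z`
    have h2 : a * (L : ℂ) + c * ((z * L : ℝ) : ℂ) + d * ((1 / z : ℝ) : ℂ) = 0 := hs
    push_cast at h2
    have h3 := bk2 (z * L) (z * (z * L)) hw hi I2 d a c 0 hd ha hc alg0 (by
      push_cast
      have h4 : d + a * ((z : ℂ) * L) + c * ((z : ℂ) * (z * L)) =
          (z : ℂ) * (a * (L : ℂ) + c * ((z : ℂ) * L) + d * (1 / (z : ℂ))) := by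
        field_simp
        ring
      rw [h4, h2, mul_zero, zero_mul, add_zero])
    exact ⟨h3.2.1, h3.2.2.1, h3.1⟩
  · -- `z L`, `π`
    have h2 : a * (L : ℂ) + c * ((z * L : ℝ) : ℂ) + d * (Real.pi : ℂ) = 0 := hs
    have h3 := bk2 L (z * L) hL hw I1 0 a c d alg0 ha hc hd (by linear_combination h2)
    exact ⟨h3.2.1, h3.2.2.1, h3.2.2.2⟩
  · -- `L / z`, `1`
    have h2 : a * (L : ℂ) + c * ((L / z : ℝ) : ℂ) + d * ((1 : ℝ) : ℂ) = 0 := hs
    have h3 := bk2 L (L / z) hL hi I3 d a c 0 hd ha hc alg0 (by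
      rw [Complex.ofReal_one] at h2
      linear_combination h2)
    exact ⟨h3.2.1, h3.2.2.1, h3.1⟩
  · -- `L / z`, `1 / z`
    have h2 : a * (L : ℂ) + c * ((L / z : ℝ) : ℂ) + d * ((1 / z : ℝ) : ℂ) = 0 := hs
    push_cast at h2
    have h3 := bk2 L (z * L) hL hw I1 d c a 0 hd hc ha alg0 (by
      push_cast
      have h4 : d + c * (L : ℂ) + a * ((z : ℂ) * L) =
          (z : ℂ) * (a * (L : ℂ) + c * ((L : ℂ) / z) + d * (1 / (z : ℂ))) := by
        field_simp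
        ring
      rw [h4, h2, mul_zero, zero_mul, add_zero])
    exact ⟨h3.2.2.1, h3.2.1, h3.1⟩
  · -- `L / z`, `π`
    have h2 : a * (L : ℂ) + c * ((L / z : ℝ) : ℂ) + d * (Real.pi : ℂ) = 0 := hs
    have h3 := bk2 L (L / z) hL hi I3 0 a c d alg0 ha hc hd (by linear_combination h2)
    exact ⟨h3.2.1, h3.2.2.1, h3.2.2.2⟩
  · -- `1`, `1 / z`
    have h2 : a * (L : ℂ) + c * ((1 : ℝ) : ℂ) + d * ((1 / z : ℝ) : ℂ) = 0 := hs
    have h3 := bk2 L (1 / z) hL hj I4 c a d 0 hc ha hd alg0 (by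
      rw [Complex.ofReal_one] at h2
      linear_combination h2)
    exact ⟨h3.2.1, h3.1, h3.2.2.1⟩
  · -- `1`, `π`
    have h2 : a * (L : ℂ) + c * ((1 : ℝ) : ℂ) + d * (Real.pi : ℂ) = 0 := hs
    have h3 := bk1 L hL hL0 c a d hc ha hd (by
      rw [Complex.ofReal_one] at h2
      linear_combination h2)
    exact ⟨h3.2.1, h3.1, h3.2.2⟩
  · -- `1 / z`, `π`
    have h2 : a * (L : ℂ) + c * ((1 / z : ℝ) : ℂ) + d * (Real.pi : ℂ) = 0 := hs
    have h3 := bk2 L (1 / z) hL hi I4 0 a c d alg0 ha hc hd (by linear_combination h2)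
    exact ⟨h3.2.1, h3.2.2.1, h3.2.2.2⟩

theorem five (hz : Transcendental ℚ z) (hL0 : L ≠ 0) (hL : IsAlgebraic ℚ (Real.exp L))
    (hw : IsAlgebraic ℚ (Real.exp (z * L))) (i j : Fin 5) (hij : i ≠ j)
    (hi : Pv z L i) (hj : Pv z L j) : False := by
  have hz0 : z ≠ 0 := by
    intro h
    apply hz
    rw [h]
    exact isAlgebraic_zero
  have hLm : (L : ℂ) ∈ Lt := lt_of hL
  have hwm : (z : ℂ) * (L : ℂ) ∈ Lt := by
    rw [← Complex.ofReal_mul]
    exact lt_of hw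
  rcases lt_or_gt_of_ne hij with h | h
  · exact core z hz _ _ _ (Yv_ind hz hL0 hL hw i j h hi hj) hLm (Yv_mem hz0 hL hw i hi).1
      (Yv_mem hz0 hL hw j hj).1 hwm (Yv_mem hz0 hL hw i hi).2 (Yv_mem hz0 hL hw j hj).2
  · exact core z hz _ _ _ (Yv_ind hz hL0 hL hw j i h hj hi) hLm (Yv_mem hz0 hL hw j hj).1
      (Yv_mem hz0 hL hw i hi).1 hwm (Yv_mem hz0 hL hw j hj).2 (Yv_mem hz0 hL hw i hi).2

end

end Pool.Agent.H137R5.Tow
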