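import Pool.Agent.H137R5.TowPair
import Pool.Agent.H137R5.TowExp

set_option autoImplicit false

/-!
Consequences of `π ^ π`, `π ^ (π ^ 2)` or `e ^ e` being algebraic.
-/

namespace Pool.Agent.H137R5.Tow

open Pool.Agent.H301R2.SSE Pool.Agent.H340R2 Pool.Agent.H462R2.PiE

/-- the logarithm of a number which is not free, exponential form -/
theorem mem_of_exp {s : ℝ} (h : ¬ Free (Real.exp s)) : (s : ℂ) ∈ Lt := by
  have h1 := bad_of_not_free h
  unfold Bad at h1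
  rwa [Real.log_exp] at h1

theorem cr {c : ℝ} (hc : IsAlgebraic ℚ c) : IsAlgebraic ℚ (c : ℂ) := alg_ofReal hc

theorem add_ne {t : ℝ} (ht : Transcendental ℚ t) {c : ℝ} (hc : IsAlgebraic ℚ c) : t + c ≠ 0 := by
  intro h
  apply ht
  have : t = -c := by linarith
  rw [this]
  exact hc.neg

/-- If `π ^ π` and `π ^ (π ^ 2)` are algebraic, then `y = π` is not in the space. -/
theorem pipi_sq (h1 : IsAlgebraic ℚ (Real.exp (Real.pi * Real.log Real.pi)))
    (h2 : IsAlgebraic ℚ (Real.exp (Real.pi * (Real.pi * Real.log Real.pi))))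
    (h3 : ((Real.pi * Real.pi : ℝ) : ℂ) ∈ Lt) : False := by
  set P := Real.pi with hP
  set Q := P * Real.log P with hQ
  have hQ0 : Q ≠ 0 := mul_ne_zero Real.pi_ne_zero
    (log_ne Real.pi_pos (by have := Real.pi_gt_three; linarith))
  refine core P LW.transcendental_pi 1 (Q : ℂ) (P : ℂ) ?_ Lt_one (lt_of h1) pi_mem ?_ ?_ ?_
  · intro a b c ha hb hc hs
    have := bk1 Q h1 hQ0 a b c ha hb hc (by linear_combination hs)
    exact this
  · rw [mul_one]; exact pi_mem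
  · rw [← Complex.ofReal_mul]; exact lt_of h2
  · rw [← Complex.ofReal_mul]; exact h3

/-- If `π ^ π` and `π ^ (π ^ 2)` are algebraic, then `y = 1 / (π + c)` is not in the space. -/
theorem pipi_inv (h1 : IsAlgebraic ℚ (Real.exp (Real.pi * Real.log Real.pi)))
    (h2 : IsAlgebraic ℚ (Real.exp (Real.pi * (Real.pi * Real.log Real.pi)))) (c : ℝ)
    (hc : IsAlgebraic ℚ c)
    (h3 : ((1 / (Real.pi + c) : ℝ) : ℂ) ∈ Lt) : False := by
  have tp := LW.transcendental_pi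
  have hne : Real.pi + c ≠ 0 := add_ne tp hc
  set P := Real.pi with hP
  set Q := P * Real.log P with hQ
  have hQ0 : Q ≠ 0 := mul_ne_zero Real.pi_ne_zero
    (log_ne Real.pi_pos (by have := Real.pi_gt_three; linarith))
  have cne : (P : ℂ) + c ≠ 0 := by exact_mod_cast hne
  have hI : ∀ p q : ℚ, (p : ℝ) * Q + q * (P * Q) = 0 → p = 0 ∧ q = 0 := by
    intro p q h
    apply rat_of_tr tp
    apply mul_right_cancel₀ hQ0
    rw [zero_mul, ← h]; ring
  refine core P tp 1 (Q : ℂ) ((1 / (P + c) : ℝ) : ℂ) ?_ Lt_one (lt_of h1) h3 ?_ ?_ ?_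
  · intro a b d ha hb hd hs
    have h5 : (a * c + d) + (b * c) * (Q : ℂ) + b * ((P * Q : ℝ) : ℂ) + a * (Real.pi : ℂ) = 0 := by
      have h6 : (a * c + d) + (b * c) * (Q : ℂ) + b * ((P * Q : ℝ) : ℂ) + a * (Real.pi : ℂ) =
          ((P : ℂ) + c) * (a * 1 + b * (Q : ℂ) + d * ((1 / (P + c) : ℝ) : ℂ)) := by
        push_cast
        field_simp
        ring
      rw [h6, hs, mul_zero]
    have := bk2 Q (P * Q) h1 h2 hI _ _ _ _ ((ha.mul (cr hc)).add hd) (hb.mul (cr hc)) hb ha h5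
    obtain ⟨e1, e2, e3, e4⟩ := this
    refine ⟨e4, e3, ?_⟩
    rw [e4, zero_mul, zero_add] at e1
    exact e1
  · rw [mul_one]; exact pi_mem
  · rw [← Complex.ofReal_mul]; exact lt_of h2
  · have h7 : (P : ℂ) * ((1 / (P + c) : ℝ) : ℂ) = 1 - (c : ℂ) * ((1 / (P + c) : ℝ) : ℂ) := by
      push_cast
      field_simp
      ring
    rw [h7]
    exact Lt.sub_mem Lt_one (Lt_mul (cr hc) h3)

/-- If `e ^ e` is algebraic and `π e` is a linear form in logarithms, then no further `y`. -/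
theorem ee_core (h1 : IsAlgebraic ℚ (Real.exp (Real.exp 1)))
    (h2 : ((Real.exp 1 * Real.pi : ℝ) : ℂ) ∈ Lt) (y : ℝ)
    (hy : ∀ a b c : ℂ, IsAlgebraic ℚ a → IsAlgebraic ℚ b → IsAlgebraic ℚ c →
      a * 1 + b * (Real.pi : ℂ) + c * (y : ℂ) = 0 → a = 0 ∧ b = 0 ∧ c = 0)
    (h3 : (y : ℂ) ∈ Lt) (h4 : ((Real.exp 1 : ℝ) : ℂ) * (y : ℂ) ∈ Lt) : False := by
  refine core (Real.exp 1) LW.transcendental_exp_one 1 (Real.pi : ℂ) (y : ℂ) hy Lt_one pi_mem h3
    ?_ ?_ h4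
  · rw [mul_one]; exact lt_of h1
  · rw [← Complex.ofReal_mul]; exact h2

/-- `1, π, e` are independent over the algebraic numbers if `e ^ e` is algebraic -/
theorem ee_sq (h1 : IsAlgebraic ℚ (Real.exp (Real.exp 1)))
    (h2 : ((Real.exp 1 * Real.pi : ℝ) : ℂ) ∈ Lt)
    (h3 : ((Real.exp 1 * Real.exp 1 : ℝ) : ℂ) ∈ Lt) : False := by
  refine ee_core h1 h2 (Real.exp 1) ?_ (lt_of h1) (by rw [← Complex.ofReal_mul]; exact h3)
  intro a b c ha hb hc hs
  have := bk1 (Real.exp 1) h1 (Real.exp_pos 1).ne' a c b ha hc hb (by linear_combination hs)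
  exact ⟨this.1, this.2.2, this.2.1⟩

theorem ee_log (h1 : IsAlgebraic ℚ (Real.exp (Real.exp 1)))
    (h2 : ((Real.exp 1 * Real.pi : ℝ) : ℂ) ∈ Lt) (t : ℝ) (ht : 0 < t) (ht1 : t ≠ 1)
    (hta : IsAlgebraic ℚ t)
    (h3 : ((Real.exp 1 * Real.log t : ℝ) : ℂ) ∈ Lt) : False := by
  have hl : IsAlgebraic ℚ (Real.exp (Real.log t)) := by rw [Real.exp_log ht]; exact hta
  refine ee_core h1 h2 (Real.log t) ?_ (lt_of hl) (by rw [← Complex.ofReal_mul]; exact h3)
  intro a b c ha hb hc hs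
  have := bk1 (Real.log t) hl (log_ne ht ht1) a c b ha hc hb (by linear_combination hs)
  exact ⟨this.1, this.2.2, this.2.1⟩

end Pool.Agent.H137R5.Tow
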