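import Pool.Agent.H137R5.TowPi

set_option autoImplicit false

/-!
More consequences of `π ^ π` and `π ^ (π ^ 2)` being algebraic.
-/

namespace Pool.Agent.H137R5.Tow

open Pool.Agent.H301R2.SSE Pool.Agent.H340R2 Pool.Agent.H462R2.PiE

/-- If `π ^ π` and `π ^ (π ^ 2)` are algebraic, then `y = log π` is not in the space. -/
theorem pipi_log (h1 : IsAlgebraic ℚ (Real.exp (Real.pi * Real.log Real.pi)))
    (h2 : IsAlgebraic ℚ (Real.exp (Real.pi * (Real.pi * Real.log Real.pi))))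
    (h3 : ((Real.log Real.pi : ℝ) : ℂ) ∈ Lt) : False := by
  have tp := LW.transcendental_pi
  set P := Real.pi with hP
  set Q := P * Real.log P with hQ
  have hQ0 : Q ≠ 0 := mul_ne_zero Real.pi_ne_zero
    (log_ne Real.pi_pos (by have := Real.pi_gt_three; linarith))
  have hI : ∀ p q : ℚ, (p : ℝ) * Q + q * (P * Q) = 0 → p = 0 ∧ q = 0 := by
    intro p q h
    apply rat_of_tr tp
    apply mul_right_cancel₀ hQ0
    rw [zero_mul, ← h]; ring
  refine core P tp 1 (Q : ℂ) ((Real.log P : ℝ) : ℂ) ?_ Lt_one (lt_of h1) h3 ?_ ?_ ?_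
  · intro a b d ha hb hd hs
    have h5 : (0 : ℂ) + d * (Q : ℂ) + b * ((P * Q : ℝ) : ℂ) + a * (Real.pi : ℂ) = 0 := by
      have h6 : (0 : ℂ) + d * (Q : ℂ) + b * ((P * Q : ℝ) : ℂ) + a * (Real.pi : ℂ) =
          (P : ℂ) * (a * 1 + b * (Q : ℂ) + d * ((Real.log P : ℝ) : ℂ)) := by
        rw [hQ]
        push_cast
        ring
      rw [h6, hs, mul_zero]
    have := bk2 Q (P * Q) h1 h2 hI _ _ _ _ isAlgebraic_zero hd hb ha h5
    exact ⟨this.2.2.2, this.2.2.1, this.2.1⟩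
  · rw [mul_one]; exact pi_mem
  · rw [← Complex.ofReal_mul]; exact lt_of h2
  · rw [← Complex.ofReal_mul]; exact lt_of h1

/-- If `π ^ π` is algebraic, and `π ^ (π ^ 2)` and `t ^ π` are not free, `t` positive algebraic,
then `t` is multiplicatively dependent on `π ^ π`. -/
theorem pipi_base (h1 : IsAlgebraic ℚ (Real.exp (Real.pi * Real.log Real.pi)))
    (h2 : ((Real.pi * (Real.pi * Real.log Real.pi) : ℝ) : ℂ) ∈ Lt) (t : ℝ) (ht : 0 < t)
    (hta : IsAlgebraic ℚ t)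
    (hind : ∀ p q : ℚ, (p : ℝ) * (Real.pi * Real.log Real.pi) + q * Real.log t = 0 →
      p = 0 ∧ q = 0)
    (h3 : ((Real.pi * Real.log t : ℝ) : ℂ) ∈ Lt) : False := by
  have tp := LW.transcendental_pi
  have hl : IsAlgebraic ℚ (Real.exp (Real.log t)) := by rw [Real.exp_log ht]; exact hta
  refine core Real.pi tp 1 ((Real.pi * Real.log Real.pi : ℝ) : ℂ) ((Real.log t : ℝ) : ℂ) ?_ Lt_one
    (lt_of h1) (lt_of hl) ?_ ?_ ?_
  · intro a b d ha hb hd hs
    have := bk2 _ _ h1 hl hind a b d 0 ha hb hd isAlgebraic_zero (by linear_combination hs)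
    exact ⟨this.1, this.2.1, this.2.2.1⟩
  · rw [mul_one]; exact pi_mem
  · rw [← Complex.ofReal_mul]; exact h2
  · rw [← Complex.ofReal_mul]; exact h3

end Pool.Agent.H137R5.Tow
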