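import Pool.Agent.H137R5.TowMain

set_option autoImplicit false

/-!
Varying the top entry of the tower.
-/

namespace Pool.Agent.H137R5.Tow

open Pool.Agent.H301R2.SSE Pool.Agent.H340R2 Pool.Agent.H462R2.PiE

theorem zpow_tr {z : ℝ} (hz : Transcendental ℚ z) {r : ℤ} (hr : r ≠ 0) :
    Transcendental ℚ (z ^ r) := by
  intro h
  apply hz
  obtain ⟨n, rfl | rfl⟩ := r.eq_nat_or_neg
  · rw [zpow_natCast] at h
    refine h.of_pow (n := n) ?_
    rcases Nat.eq_zero_or_pos n with h0 | h0
    · subst h0; simp at hr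
    · exact h0
  · rw [zpow_neg, zpow_natCast] at h
    have h2 := h.inv
    rw [inv_inv] at h2
    refine h2.of_pow (n := n) ?_
    rcases Nat.eq_zero_or_pos n with h0 | h0
    · subst h0; simp at hr
    · exact h0

/-- the exponents `k` for which `z ^ k * L` is a linear form in logarithms -/
def InE (z L : ℝ) (k : ℕ) : Prop := ((z ^ k * L : ℝ) : ℂ) ∈ Lt

theorem diff_two (z L : ℝ) (hz : Transcendental ℚ z) (hL : L ≠ 0) (r : ℤ) (hr : r ≠ 0)
    (k l m k' l' m' : ℕ) (hk : (k : ℤ) + r = k') (hl : (l : ℤ) + r = l') (hm : (m : ℤ) + r = m')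
    (hkl : k ≠ l) (hkm : k ≠ m) (hlm : l ≠ m)
    (ek : InE z L k) (el : InE z L l) (em : InE z L m)
    (ek' : InE z L k') (el' : InE z L l') (em' : InE z L m') : False := by
  have hz0 : z ≠ 0 := by
    intro h
    apply hz
    rw [h]
    exact isAlgebraic_zero
  have hLc : (L : ℂ) ≠ 0 := by exact_mod_cast hL
  have hcz := trC hz
  have h3 := (powers (z : ℂ) hcz k l m hkl hkm hlm).smul hLc
  have shift : ∀ j j' : ℕ, (j : ℤ) + r = j' → InE z L j' →
      ((z ^ r : ℝ) : ℂ) * ((L : ℂ) * (z : ℂ) ^ j) ∈ Lt := by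
    intro j j' hj hj'
    unfold InE at hj'
    have : ((z ^ r : ℝ) : ℂ) * ((L : ℂ) * (z : ℂ) ^ j) = ((z ^ j' * L : ℝ) : ℂ) := by
      have h1 : z ^ r * z ^ j = z ^ j' := by
        rw [← zpow_natCast z j, ← zpow_natCast z j', ← zpow_add₀ hz0, ← hj, add_comm]
      rw [← h1]
      push_cast
      ring
    rw [this]
    exact hj'
  have base : ∀ j : ℕ, InE z L j → (L : ℂ) * (z : ℂ) ^ j ∈ Lt := by
    intro j hj
    unfold InE at hj
    have : (L : ℂ) * (z : ℂ) ^ j = ((z ^ j * L : ℝ) : ℂ) := by push_cast; ring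
    rw [this]
    exact hj
  exact core (z ^ r) (zpow_tr hz hr) _ _ _ h3 (base k ek) (base l el) (base m em)
    (shift k k' hk ek') (shift l l' hl el') (shift m m' hm em')

/-- a finite set of natural numbers in which every nonzero difference occurs at most twice -/
theorem card_of_diff (S : Finset ℕ) (N : ℕ) (hS : ∀ k ∈ S, 1 ≤ k ∧ k ≤ N)
    (h : ∀ r : ℤ, r ≠ 0 → ∀ k ∈ S, ∀ l ∈ S, ∀ m ∈ S, ∀ k' ∈ S, ∀ l' ∈ S, ∀ m' ∈ S,
      (k : ℤ) + r = k' → (l : ℤ) + r = l' → (m : ℤ) + r = m' → k ≠ l → k ≠ m → l ≠ m → False) :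
    S.card * S.card ≤ 4 * N + S.card := by
  classical
  have h1 := Finset.card_le_mul_card_image (f := fun x : ℕ × ℕ => (x.2 : ℤ) - x.1) S.offDiag 2 (by
    intro r hr
    obtain ⟨x, hx, hxr⟩ := Finset.mem_image.mp hr
    have hr0 : r ≠ 0 := by
      rw [Finset.mem_offDiag] at hx
      intro h0
      apply hx.2.2
      omega
    by_contra hcon
    push Not at hcon
    obtain ⟨u, hu, v, hv, w, hw, huv, huw, hvw⟩ := Finset.two_lt_card.mp hcon
    rw [Finset.mem_filter, Finset.mem_offDiag] at hu hv hw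
    refine h r hr0 u.1 hu.1.1 v.1 hv.1.1 w.1 hw.1.1 u.2 hu.1.2.1 v.2 hv.1.2.1 w.2 hw.1.2.1
      (by have := hu.2; omega) (by have := hv.2; omega) (by have := hw.2; omega) ?_ ?_ ?_
    · intro he
      apply huv
      have := hu.2
      have := hv.2
      ext
      · exact he
      · omega
    · intro he
      apply huw
      have := hu.2
      have := hw.2
      ext
      · exact he
      · omega
    · intro he
      apply hvw
      have := hv.2
      have := hw.2
      ext
      · exact he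
      · omega)
  have h2 : (S.offDiag.image (fun x : ℕ × ℕ => (x.2 : ℤ) - x.1)).card ≤ 2 * N := by
    have hsub : S.offDiag.image (fun x : ℕ × ℕ => (x.2 : ℤ) - x.1) ⊆
        (Finset.Icc (-(N : ℤ)) (N : ℤ)).erase 0 := by
      intro r hr
      obtain ⟨x, hx, hxr⟩ := Finset.mem_image.mp hr
      rw [Finset.mem_offDiag] at hx
      have a1 := hS _ hx.1
      have a2 := hS _ hx.2.1
      rw [Finset.mem_erase, Finset.mem_Icc]
      refine ⟨?_, ?_, ?_⟩
      · intro h0
        apply hx.2.2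
        omega
      · omega
      · omega
    refine (Finset.card_le_card hsub).trans ?_
    rw [Finset.card_erase_of_mem (by rw [Finset.mem_Icc]; omega), Int.card_Icc]
    omega
  rw [Finset.offDiag_card] at h1
  have h3 : S.card ≤ S.card * S.card := Nat.le_mul_self _
  omega

open Classical in
theorem topCount (z L : ℝ) (hz : Transcendental ℚ z) (hL : L ≠ 0) (N : ℕ) :
    (((Finset.Icc 1 N).filter (fun k : ℕ => InE z L k)).card : ℝ) ≤ 2 * Real.sqrt N + 1 := by
  set S := (Finset.Icc 1 N).filter (fun k : ℕ => InE z L k) with hS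
  have h1 := card_of_diff S N (by
    intro k hk
    rw [hS, Finset.mem_filter, Finset.mem_Icc] at hk
    exact hk.1) (by
    intro r hr k hk l hl m hm k' hk' l' hl' m' hm' e1 e2 e3 n1 n2 n3
    rw [hS, Finset.mem_filter] at hk hl hm hk' hl' hm'
    exact diff_two z L hz hL r hr k l m k' l' m' e1 e2 e3 n1 n2 n3 hk.2 hl.2 hm.2 hk'.2 hl'.2 hm'.2)
  have h2 : (S.card : ℝ) * S.card ≤ 4 * N + S.card := by exact_mod_cast h1
  have h3 : Real.sqrt N * Real.sqrt N = N := Real.mul_self_sqrt (Nat.cast_nonneg _)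
  have h4 : 0 ≤ Real.sqrt N := Real.sqrt_nonneg _
  by_contra hcon
  push Not at hcon
  nlinarith

end Pool.Agent.H137R5.Tow
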